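import Pool.Agent.Helper45.U4.St1

/-!
Project U4 (MP_a1f43d_co), module RTH: formulas in rank three.
-/

set_option autoImplicit false

open Module Classical
open scoped LinearAlgebra.Projectivization

namespace Pool.Agent.Helper73.U4

open Pool.Agent.Helper45.U4 Pool.Agent.Helper53.PB

theorem np_gen {F V : Type} [Field F] [AddCommGroup V] [Module F V] [Finite V]
    {P : Polar F V} {f : ℙ F V → ℤ} (hs : Sup P f) {U : Submodule F V} (hU : P.Gen U) :
    np P f U = tf f U := by
  unfold np tf pts
  rw [Finset.sum_filter, Finset.sum_filter]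
  refine Finset.sum_congr rfl (fun y _ => ?_)
  by_cases h1 : y.rep ∈ U
  · have h2 : U ≤ LinearMap.ker (P.f y.rep) := by
      intro x hx
      exact hU.1.2 y.rep h1 x hx
    rw [if_pos h1, if_pos h2]
  · rw [if_neg h1]
    by_cases h3 : P.sing y.rep
    · rw [if_neg (Polar.Gen.not_le hU h3 h1)]
    · rw [hs y h3, ite_self]

theorem geo41 : geo 4 1 = 1 := by decide

theorem geo42 : geo 4 2 = 5 := by decide

theorem geo43 : geo 4 3 = 21 := by decide

theorem hRTH (h1 : StSUM) (h2 : StDCT) (h3 : StTHR) : StRTH := by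
  intro F V _ _ _ _ _ _ φ f hφ hs
  have hq : Nat.card F = 4 := hφ.card
  refine ⟨?_, ?_, ?_⟩
  · intro U hU N
    have hr : finrank F U = 3 := hφ.gen U hU
    obtain ⟨hA, hB, -⟩ := h1 φ.toPolar U N f hq hU.1 hs
    obtain ⟨hA1, hA2⟩ := hA 2 hr
    refine ⟨⟨?_, ?_⟩, ?_⟩
    · rw [Finset.sum_sub_distrib, Finset.sum_const, Finset.card_univ, hA2]
      have e : geo 4 (2 + 1) = 21 := geo43
      rw [e]
      rw [geo42] at hA1
      push_cast at hA1 ⊢
      simp only [nsmul_eq_mul, mul_one]
      push_cast
      linarith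
    · rw [hA2]
      decide
    · intro X hX
      obtain ⟨hB1, hB2⟩ := hB 1 hr X hX
      refine ⟨?_, ?_⟩
      · rw [Finset.sum_sub_distrib, Finset.sum_const, hB2]
        have e : geo 4 (1 + 1) = 5 := geo42
        rw [e]
        rw [geo41] at hB1
        unfold s3
        push_cast at hB1 ⊢
        simp only [nsmul_eq_mul, mul_one]
        push_cast
        linarith
      · rw [hB2]
        decide
  · intro U hU
    have hr : finrank F U = 3 := hφ.gen U hU
    have hD := h2 φ.toPolar f U 2 hq hr
    rw [np_gen hs hU, geo42] at hD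
    have hc : (pts U).card = 21 := by
      rw [card_pts, hq, hr]
      exact geo43
    unfold s3
    rw [Finset.sum_add_distrib, Finset.sum_sub_distrib, Finset.sum_const, hc, ← Finset.mul_sum,
      hD]
    change _ + 8 * tf f U = _
    simp only [nsmul_eq_mul]
    push_cast
    ring
  · intro L U0 U1 U2 hL hL2 hT
    have hD := h2 φ.toPolar f L 1 hq hL2
    have hN := (h3 φ 3 hφ L hL (by rw [hL2])).2 U0 U1 U2 hT f hs
    rw [hN, geo41] at hD
    have hc : (pts L).card = 5 := by
      rw [card_pts, hq, hL2]
      exact geo42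
    unfold s3
    rw [Finset.sum_add_distrib, Finset.sum_sub_distrib, Finset.sum_const, hc, ← Finset.mul_sum,
      hD]
    change _ + 8 * tf f L = _
    simp only [nsmul_eq_mul]
    push_cast
    ring

end Pool.Agent.Helper73.U4
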